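import Pool.Agent.H78.S.Targets

/-!
# Finite powers of an irreducible type (row FPW of the board sgt)
-/

set_option autoImplicit false

open Set Pool.Agent.H77.BC Pool.Agent.H78.S

namespace Pool.Agent.H17.SGT

variable {M : Type} {U : RU M} {α : Type} [Cod M α] [Ful U α]

/-- the bijection -/
def fc {α : Type} {k : ℕ} (p : α × (Fin k → α)) : Fin (k + 1) → α := Fin.cons p.1 p.2

theorem fc_eq {α : Type} {k : ℕ} (p : α × (Fin k → α)) (y : Fin (k + 1) → α) :
    y = fc p ↔ y 0 = p.1 ∧ ∀ i : Fin k, y i.succ = p.2 i := by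
  constructor
  · rintro rfl
    exact ⟨rfl, fun i => rfl⟩
  · rintro ⟨h0, h⟩
    funext i
    refine Fin.cases h0 (fun i => ?_) i
    exact h i

theorem fc_DFn {k : ℕ} : DFn U (fc : α × (Fin k → α) → (Fin (k + 1) → α)) := by
  unfold DFn
  have e : {q : (α × (Fin k → α)) × (Fin (k + 1) → α) | q.2 = fc q.1} =
      {q | q.2 0 = q.1.1 ∧ ∀ i : Fin k, q.2 i.succ = q.1.2 i} := by
    ext q
    exact fc_eq q.1 q.2
  rw [e]
  refine D_and (D_eqf (DFn_comp (DFn_apply 0) DFn_snd) (DFn_comp DFn_fst DFn_fst))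
    (D_forall_fin fun i => D_eqf (DFn_comp (DFn_apply i.succ) DFn_snd)
      (DFn_comp (DFn_apply i) (DFn_comp DFn_snd DFn_fst)))

theorem fc_inj {α : Type} {k : ℕ} : Function.Injective (fc : α × (Fin k → α) → _) := by
  intro p q h
  have h1 := (fc_eq p (fc q)).1 h.symm
  have h2 := (fc_eq q (fc q)).1 rfl
  refine Prod.ext (h1.1.symm.trans h2.1) (funext fun i => (h1.2 i).symm.trans (h2.2 i))

theorem fc_univ {α : Type} {k : ℕ} :
    (fc : α × (Fin k → α) → (Fin (k + 1) → α)) '' univ = univ := by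
  rw [eq_univ_iff_forall]
  intro y
  exact ⟨(y 0, fun i => y i.succ), mem_univ _, ((fc_eq _ y).2 ⟨rfl, fun i => rfl⟩).symm⟩

theorem pf_FPW (hIRP : T_IRP) (hIRI : T_IRI) : T_FPW := by
  intro M U α _ _ hα k
  induction k with
  | zero =>
    have hD : U.D (univ : Set (Fin 0 → α)) := Ful.full
    have hne : (univ : Set (Fin 0 → α)).Nonempty := ⟨Fin.elim0, mem_univ _⟩
    refine ⟨⟨hD, hne, ?_⟩, ?_⟩
    · rintro X Y ⟨X', -, ⟨x, hx⟩, -, hX, -⟩ ⟨Y', -, ⟨y, hy⟩, -, hY, -⟩
      refine ⟨x, hX hx, ?_⟩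
      rw [Subsingleton.elim x y]
      exact hY hy
    · rw [Nat.zero_mul]
      exact ((l_RKA U).fin hD hne).2 (Set.toFinite _)
  | succ k ih =>
    obtain ⟨hI, hR⟩ := ih
    have h1 := (hIRP U (univ : Set α) (univ : Set (Fin k → α)) hα hI).1
    rw [univ_prod_univ] at h1
    have h2 := (hIRI U (univ : Set (α × (Fin k → α))) fc 0 h1 fc_DFn (by
      rintro b ⟨a, -, rfl⟩
      have e : {a' : α × (Fin k → α) | a' ∈ (univ : Set (α × (Fin k → α))) ∧ fc a' = fc a} =
          {a} := by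
        ext a'
        exact ⟨fun h => fc_inj h.2, fun h => ⟨mem_univ _, congrArg fc h⟩⟩
      rw [e]
      exact ((l_RKA U).fin (D_singleton a) (singleton_nonempty a)).2 (finite_singleton a))).1
    rw [fc_univ] at h2
    refine ⟨h2, ?_⟩
    have h3 := (l_RKB U).inj (X := (univ : Set (α × (Fin k → α)))) (f := fc) Ful.full
      fc_DFn h1.2.1 fc_inj.injOn
    rw [fc_univ] at h3
    have h4 := (l_RKB U).prod (X := (univ : Set α)) (Y := (univ : Set (Fin k → α)))
      Ful.full Ful.full hα.2.1 hI.2.1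
    rw [univ_prod_univ] at h4
    rw [h3, h4, hR]
    ring

end Pool.Agent.H17.SGT
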