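import Pool.Agent.H78.S.T8

/-!
# Existence of lines, transitive groups (row LXI of the board sgt)
-/

set_option autoImplicit false

open Set Pool.Agent.H77.BC Pool.Agent.H78.S
open Pool.Agent.H77.KG (QClosed Ext codE Qt DA DFn_act)

namespace Pool.Agent.H17.SGT

theorem relIndex_ne {Γ Q : Type} [Group Γ] [Finite Q] (H C : Subgroup Γ) (f : Γ → Q)
    (hf : ∀ a ∈ H, ∀ b ∈ H, f a = f b → a⁻¹ * b ∈ C) : C.relIndex H ≠ 0 := by
  have hfin : Finite (H ⧸ C.subgroupOf H) := by
    refine Finite.of_injective (fun q : H ⧸ C.subgroupOf H => f (q.out : Γ)) ?_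
    intro q1 q2 h12
    have h1 := hf _ (q1.out).2 _ (q2.out).2 h12
    rw [← QuotientGroup.out_eq' q1, ← QuotientGroup.out_eq' q2, QuotientGroup.eq]
    exact h1
  unfold Subgroup.relIndex Subgroup.index
  exact Nat.card_pos.ne'

/-- definable subgroups of finite index of a connected group -/
theorem conn_top {M : Type} (U : RU M) {G : Type} [Group G] [Cod M G] [DG U G]
    (hc : Conn U (⊤ : Subgroup G)) (C : Subgroup G) (hD : U.D (C : Set G)) {Q : Type} [Finite Q]
    (f : G → Q) (hf : ∀ a b, f a = f b → a⁻¹ * b ∈ C) : C = ⊤ := by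
  have hrel := relIndex_ne (⊤ : Subgroup G) C f (fun a _ b _ => hf a b)
  exact hc.2 C le_top hD ((l_GRA U ⊤ C hc.1 hD le_top).1 hrel)

section act

variable {G S : Type} [Group G] [MulAction G S]

/-- the orbits of a subgroup -/
def oE (N : Subgroup G) (S : Type) [MulAction G S] : Setoid S where
  r y z := ∃ g ∈ N, z = g • y
  iseqv := {
    refl := fun y => ⟨1, N.one_mem, (one_smul G y).symm⟩
    symm := by
      rintro y z ⟨g, hg, rfl⟩
      exact ⟨g⁻¹, N.inv_mem hg, (inv_smul_smul g y).symm⟩
    trans := by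
      rintro y z w ⟨g, hg, rfl⟩ ⟨h, hh, rfl⟩
      exact ⟨h * g, N.mul_mem hh hg, (mul_smul h g y).symm⟩ }

theorem oE_inv (N : Subgroup G) [hN : N.Normal] (g : G) (x y : S) (h : (oE N S).r x y) :
    (oE N S).r (g • x) (g • y) := by
  obtain ⟨n, hn, rfl⟩ := h
  refine ⟨g * n * g⁻¹, hN.conj_mem n hn g, ?_⟩
  rw [mul_smul, inv_smul_smul, mul_smul]

theorem oE_D {M : Type} {U : RU M} [Cod M G] [Cod M S] [DG U G] [Ful U S] [DA U G S]
    (N : Subgroup G) (hN : U.D (N : Set G)) : U.D {z : S × S | (oE N S).r z.1 z.2} := by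
  refine D_exists (p := fun (z : S × S) (g : G) => g ∈ N ∧ z.2 = g • z.1) ?_
  refine D_and (D_subst (p := fun g : G => g ∈ N) hN DFn_snd) ?_
  exact D_eqf (DFn_comp DFn_snd DFn_fst) (DFn_act DFn_snd (DFn_comp DFn_fst DFn_fst))

/-- the elements which commute with the action -/
def Zc (G S : Type) [Group G] [MulAction G S] : Subgroup G where
  carrier := {g | ∀ (h : G) (y : S), (g * h) • y = (h * g) • y}
  one_mem' := fun h y => by rw [one_mul, mul_one]
  mul_mem' := by
    intro a b ha hb h y
    have h1 := hb h y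
    have h2 := ha h (b • y)
    calc (a * b * h) • y = a • ((b * h) • y) := by rw [mul_assoc, mul_smul]
      _ = a • ((h * b) • y) := by rw [h1]
      _ = (a * h) • (b • y) := by rw [← mul_smul, ← mul_smul, mul_assoc]
      _ = (h * a) • (b • y) := h2
      _ = (h * (a * b)) • y := by rw [← mul_smul, mul_assoc]
  inv_mem' := by
    intro a ha h y
    have h1 := ha h (a⁻¹ • y)
    have h2 : (h * a) • (a⁻¹ • y) = h • y := by rw [← mul_smul, mul_inv_cancel_right]
    rw [h2] at h1
    calc (a⁻¹ * h) • y = a⁻¹ • (h • y) := mul_smul _ _ _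
      _ = a⁻¹ • ((a * h) • (a⁻¹ • y)) := by rw [h1]
      _ = (h * a⁻¹) • y := by
        rw [← mul_smul, ← mul_smul, ← mul_assoc, inv_mul_cancel, one_mul]

theorem mem_Zc {g : G} : g ∈ Zc G S ↔ ∀ (h : G) (y : S), (g * h) • y = (h * g) • y := Iff.rfl

instance Zc_normal : (Zc G S).Normal := by
  refine ⟨fun n hn g h y => ?_⟩
  rw [mem_Zc] at hn
  have h0 : ∀ (a : G) (y : S), (a * n * a⁻¹) • y = n • y := by
    intro a y
    rw [mul_assoc, mul_smul, hn, ← mul_smul, mul_inv_cancel_left]
  rw [mul_smul, h0, mul_smul h, h0, ← mul_smul, ← mul_smul]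
  exact hn h y

theorem Zc_D {M : Type} {U : RU M} [Cod M G] [Cod M S] [DG U G] [Ful U S] [DA U G S] :
    U.D ((Zc G S : Subgroup G) : Set G) := by
  have h : U.D {g : G | ∀ h : G, ∀ y : S, (g * h) • y = (h * g) • y} := by
    refine D_forall (p := fun (g h : G) => ∀ y : S, (g * h) • y = (h * g) • y) ?_
    refine D_forall (p := fun (z : G × G) (y : S) => (z.1 * z.2) • y = (z.2 * z.1) • y) ?_
    have h1 : DFn U (fun z : (G × G) × S => z.1.1) := DFn_comp DFn_fst DFn_fst
    have h2 : DFn U (fun z : (G × G) × S => z.1.2) := DFn_comp DFn_snd DFn_fst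
    exact D_eqf (DFn_act (DFn_gmul h1 h2) DFn_snd) (DFn_act (DFn_gmul h2 h1) DFn_snd)
  exact h

/-- the elements which commute with `n` on `S` -/
def Dn (S : Type) [MulAction G S] (n : G) : Subgroup G where
  carrier := {g | ∀ y : S, (g * n) • y = (n * g) • y}
  one_mem' := fun y => by rw [one_mul, mul_one]
  mul_mem' := by
    intro a b ha hb y
    have h1 := hb y
    have h2 := ha (b • y)
    calc (a * b * n) • y = a • ((b * n) • y) := by rw [mul_assoc, mul_smul]
      _ = a • ((n * b) • y) := by rw [h1]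
      _ = (a * n) • (b • y) := by rw [← mul_smul, ← mul_smul, mul_assoc]
      _ = (n * a) • (b • y) := h2
      _ = (n * (a * b)) • y := by rw [← mul_smul, mul_assoc]
  inv_mem' := by
    intro a ha y
    have h1 := ha (a⁻¹ • y)
    have h2 : (n * a) • (a⁻¹ • y) = n • y := by rw [← mul_smul, mul_inv_cancel_right]
    rw [h2] at h1
    calc (a⁻¹ * n) • y = a⁻¹ • (n • y) := mul_smul _ _ _
      _ = a⁻¹ • ((a * n) • (a⁻¹ • y)) := by rw [h1]
      _ = (n * a⁻¹) • y := by
        rw [← mul_smul, ← mul_smul, ← mul_assoc, inv_mul_cancel, one_mul]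

theorem Dn_D {M : Type} {U : RU M} [Cod M G] [Cod M S] [DG U G] [Ful U S] [DA U G S] (n : G) :
    U.D ((Dn S n : Subgroup G) : Set G) := by
  have h : U.D {g : G | ∀ y : S, (g * n) • y = (n * g) • y} := by
    refine D_forall (p := fun (g : G) (y : S) => (g * n) • y = (n * g) • y) ?_
    have h1 : DFn U (fun z : G × S => z.1) := DFn_fst
    exact D_eqf (DFn_act (DFn_gmul h1 (DFn_const n)) DFn_snd)
      (DFn_act (DFn_gmul (DFn_const n) h1) DFn_snd)
  exact h

/-- infinite orbits of a normal subgroup of a transitive group -/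
theorem inf_orb (htr : ∀ y z : S, ∃ g : G, g • y = z) (N : Subgroup G) [hN : N.Normal]
    (y z : S) (hy : (Orb N y).Infinite) : (Orb N z).Infinite := by
  obtain ⟨g, rfl⟩ := htr y z
  have h : (fun a : S => g • a) '' Orb N y ⊆ Orb N (g • y) := by
    rintro _ ⟨a, ⟨n, hn, rfl⟩, rfl⟩
    refine ⟨g * n * g⁻¹, hN.conj_mem n hn g, ?_⟩
    rw [mul_smul, inv_smul_smul, mul_smul]
  exact (hy.image (MulAction.injective g).injOn).mono h

end act

/-- a normal subgroup with finitely many orbits is transitive -/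
theorem fin_trans {M : Type} (U : RU M) {G S : Type} [Group G] [MulAction G S] [Cod M G]
    [Cod M S] [DG U G] [Ful U S] [DA U G S] (hc : Conn U (⊤ : Subgroup G))
    (htr : ∀ y z : S, ∃ g : G, g • y = z) (N : Subgroup G) [hN : N.Normal]
    (hND : U.D (N : Set G)) {S' : Type} [Finite S'] (q : S → S')
    (hq : ∀ x y, q x = q y ↔ (oE N S).r x y) (o z : S) : ∃ g ∈ N, g • o = z := by
  let C : Subgroup G := {
    carrier := {g | (oE N S).r o (g • o)}
    one_mem' := by
      change (oE N S).r o ((1 : G) • o)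
      rw [one_smul]
    mul_mem' := by
      intro a b ha hb
      change (oE N S).r o ((a * b) • o)
      rw [mul_smul]
      exact (oE N S).trans ha (oE_inv N a _ _ hb)
    inv_mem' := by
      intro a ha
      change (oE N S).r o (a⁻¹ • o)
      have h := oE_inv N a⁻¹ _ _ ha
      rw [inv_smul_smul] at h
      exact (oE N S).symm h }
  have hCD : U.D (C : Set G) :=
    D_subst (p := fun z : S × S => (oE N S).r z.1 z.2) (oE_D N hND)
      (f := fun g : G => (o, g • o)) (DFn_pair (DFn_const o) (DFn_act DFn_id (DFn_const o)))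
  have h1 := conn_top U hc C hCD (fun g => q (g • o)) (by
    intro a b hab
    have h := (hq _ _).1 hab
    have h2 := oE_inv N a⁻¹ _ _ h
    rw [inv_smul_smul, ← mul_smul] at h2
    exact h2)
  obtain ⟨g, rfl⟩ := htr o z
  have h2 : g ∈ C := by rw [h1]; exact Subgroup.mem_top g
  obtain ⟨n, hn, h3⟩ := h2
  exact ⟨n, hn, h3.symm⟩

/-- a definable normal subgroup with finite orbits commutes with the action -/
theorem le_Zc (hCCA : T_CCA) (hCFN : T_CFN) {M : Type} (U : RU M) {G S : Type} [Group G]
    [MulAction G S] [Cod M G] [Cod M S] [DG U G] [Ful U S] [DA U G S]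
    (hact : DFn U (fun p : G × S => p.1 • p.2)) (hc : Conn U (⊤ : Subgroup G))
    (N : Subgroup G) [hN : N.Normal] (hND : U.D (N : Set G))
    (hfin : ∀ y : S, (Orb N y).Finite) : N ≤ Zc G S := by
  obtain ⟨c1, c2, c3, -⟩ := hCCA U N hND
  set C := cc U N with hC
  have hfix : ∀ c ∈ C, ∀ y : S, c • y = y := by
    intro c hcC y
    refine (hCFN U hact C c2).1 (Orb N y) (hfin y) ?_ c hcC y ⟨1, N.one_mem, (one_smul G y).symm⟩
    rintro h hh _ ⟨n, hn, rfl⟩
    exact ⟨h * n, N.mul_mem (c1 hh) hn, (mul_smul h n y).symm⟩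
  have : Finite (N ⧸ C.subgroupOf N) := by
    have h : (C.subgroupOf N).index ≠ 0 := c3
    have h2 : (C.subgroupOf N).FiniteIndex := ⟨h⟩
    infer_instance
  intro n hn
  have h1 := conn_top U hc (Dn S n) (Dn_D n)
    (fun g => ((⟨g * n * g⁻¹, hN.conj_mem n hn g⟩ : N) : N ⧸ C.subgroupOf N)) (by
      intro a b hab
      rw [QuotientGroup.eq] at hab
      have h2 : (a * n * a⁻¹)⁻¹ * (b * n * b⁻¹) ∈ C := hab
      intro y
      have h3 := hfix _ h2 (b • y)
      have h4 : (b * n * b⁻¹) • (b • y) = (a * n * a⁻¹) • (b • y) := by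
        rw [mul_smul, inv_smul_eq_iff] at h3
        exact h3
      have h5 : (b * n * b⁻¹) • (b • y) = (b * n) • y := by
        rw [← mul_smul, inv_mul_cancel_right]
      rw [h5] at h4
      calc (a⁻¹ * b * n) • y = a⁻¹ • ((b * n) • y) := by rw [mul_assoc, mul_smul]
        _ = a⁻¹ • ((a * n * a⁻¹) • (b • y)) := by rw [h4]
        _ = (n * (a⁻¹ * b)) • y := by
          rw [← mul_smul, ← mul_smul]
          congr 1
          group)
  intro h y
  have h2 : h ∈ Dn S n := by rw [h1]; exact Subgroup.mem_top h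
  exact (h2 y).symm

theorem pf_LXI (kQMN : Pool.Agent.H77.KG.T_QMN) (hQCX : T_QCX) (hLX0 : T_LX0) (hCCA : T_CCA)
    (_hCTB : T_CTB) (_hORB : T_ORB) (hCFN : T_CFN) (_hBGA : T_BGA) (_hORM : T_ORM) : T_LXI := by
  intro C hC k
  induction k with
  | zero =>
    intro M U hCU G S _ _ _ _ _ _ hact hsol hR T o e hctx
    have := hctx.pos
    omega
  | succ k ih =>
    intro M U hCU G S _ _ _ _ _ _ hact hsol hR T o e hctx
    have hDA : DA U G S := ⟨hact⟩
    have htr : ∀ y z : S, ∃ g : G, g • y = z := by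
      intro y z
      have hy : y ∈ (univ : Set S) := mem_univ _
      have hz : z ∈ (univ : Set S) := mem_univ _
      rw [hctx.orb] at hy hz
      obtain ⟨g, -, rfl⟩ := hy
      obtain ⟨h, -, rfl⟩ := hz
      exact ⟨h * g⁻¹, by rw [mul_smul, inv_smul_smul]⟩
    have hSinf : Infinite S := by
      by_contra hfin
      rw [not_infinite_iff_finite] at hfin
      have h1 := ((l_RKA U).fin (X := (univ : Set S)) Ful.full ⟨o, mem_univ _⟩).2 (Set.toFinite _)
      have h2 := hctx.pos
      omega
    by_cases hA : ∃ N : Subgroup G, N.Normal ∧ U.D (N : Set G) ∧ (∃ y : S, (Orb N y).Infinite) ∧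
        ¬ ∀ y z : S, ∃ g ∈ N, g • y = z
    · -- case A
      obtain ⟨N, hNn, hND, ⟨y0, hy0⟩, hNt⟩ := hA
      obtain ⟨M', U', e0, h, G', S', _, _, cG, cS, p, q, hCU', _, _, hDA', _, hQt, hqE⟩ :=
        kQMN C hC U hCU (G := G) (S := S) (oE N S) (oE_D N hND) (fun g x y => oE_inv N g x y)
      have hS' : Infinite S' := by
        by_contra hfin
        rw [not_infinite_iff_finite] at hfin
        exact hNt fun y z => fin_trans U hctx.conn htr N hND q hqE y z
      obtain ⟨hctx', hlin, hsol', -, hrk, -⟩ :=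
        hQCX U U' e0 h p q hact hDA'.act hQt hS' T o e hctx
      refine hlin (ih U' hCU' hDA'.act (hsol' hsol) ?_ _ _ _ hctx')
      have h1 : {y : S | q y = q o}.Infinite := by
        refine (inf_orb htr N y0 o hy0).mono ?_
        rintro _ ⟨n, hn, rfl⟩
        exact (hqE _ _).2 ((oE N S).symm ⟨n, hn, rfl⟩)
      have h2 := hrk h1
      omega
    · -- case B
      have hB : ∀ N : Subgroup G, N.Normal → U.D (N : Set G) → (∃ y : S, (Orb N y).Infinite) →
          ∀ y z : S, ∃ g ∈ N, g • y = z := by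
        intro N h1 h2 h3
        by_contra h4
        exact hA ⟨N, h1, h2, h3, h4⟩
      -- all orbits of `Z` are finite
      have hZfin : ∀ y : S, (Orb (Zc G S) y).Finite := by
        intro y
        by_contra hinf
        have htrZ := hB (Zc G S) inferInstance Zc_D ⟨y, hinf⟩
        have hTfix : ∀ t ∈ T, ∀ z : S, t • z = z := by
          intro t ht z
          obtain ⟨c, hc, rfl⟩ := htrZ o z
          have h1 : t ∈ Fx (⊤ : Subgroup G) o := by
            rw [hctx.comp] at ht
            refine (sInf_le (?_ : Fx (⊤ : Subgroup G) o ∈ _)) ht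
            refine ⟨le_rfl, ?_, ?_⟩
            · have h : U.D {g : G | g • o = o} :=
                D_eqf (DFn_act DFn_id (DFn_const _)) (DFn_const _)
              have e1 : ((Fx (⊤ : Subgroup G) o : Subgroup G) : Set G) = {g : G | g • o = o} := by
                ext g
                exact ⟨fun h => h.2, fun h => ⟨Subgroup.mem_top g, h⟩⟩
              rw [e1]
              exact h
            · rw [Subgroup.relIndex_self]
              exact one_ne_zero
          have h2 : t • o = o := h1.2
          have h3 : (c * t) • o = (t * c) • o := hc t o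
          rw [← mul_smul, ← h3, mul_smul, h2]
        obtain ⟨Y, hYD, hYne, -, hYsub, hYR⟩ := hctx.gen
        have hYfin : Y.Finite := by
          refine (Set.finite_singleton e).subset fun a ha => ?_
          obtain ⟨t, ht, rfl⟩ := hYsub ha
          rw [hTfix t ht]
          exact rfl
        have h1 := ((l_RKA U).fin hYD hYne).2 hYfin
        have h2 := hctx.pos
        omega
      obtain ⟨M', U', e0, h, G', S', _, _, cG, cS, p, q, hCU', _, _, hDA', hfaith, hQt, hqE⟩ :=
        kQMN C hC U hCU (G := G) (S := S) (oE (Zc G S) S) (oE_D _ Zc_D)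
          (fun g x y => oE_inv (Zc G S) g x y)
      obtain ⟨-, hsq0, -, -, -⟩ := id hQt
      have hS' : Infinite S' := by
        by_contra hfin
        rw [not_infinite_iff_finite] at hfin
        have h1 : (univ : Set S) = ⋃ s' : S', {y | q y = s'} := by
          ext y
          simp
        have h2 : (univ : Set S).Finite := by
          rw [h1]
          refine Set.finite_iUnion fun s' => ?_
          obtain ⟨y, rfl⟩ := hsq0 s'
          refine (hZfin y).subset fun z hz => ?_
          obtain ⟨g, hg, h3⟩ := (hqE y z).1 hz.symm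
          exact ⟨g, hg, h3⟩
        exact Set.infinite_univ h2
      obtain ⟨hsp, hsq, -, -, heqv⟩ := id hQt
      obtain ⟨hctx', hlin, hsol', -, -, hcom⟩ :=
        hQCX U U' e0 h p q hact hDA'.act hQt hS' T o e hctx
      refine hlin (hLX0 U' hDA'.act hfaith (hsol' hsol) _ _ _ hctx' ?_)
      intro N' hN' hND' hNe
      have hNn : (N'.comap p).Normal := hN'.comap p
      by_cases hinf : ∃ y : S, (Orb (N'.comap p) y).Infinite
      · have h1 := hB _ hNn (hcom N' hND') hinf
        intro y' z'
        obtain ⟨y, rfl⟩ := hsq y'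
        obtain ⟨z, rfl⟩ := hsq z'
        obtain ⟨g, hg, rfl⟩ := h1 y z
        exact ⟨p g, hg, (heqv g y).symm⟩
      · exfalso
        have h1 : N'.comap p ≤ Zc G S := le_Zc hCCA hCFN U hact hctx.conn _ (hcom N' hND')
          (fun y => by
            by_contra h2
            exact hinf ⟨y, h2⟩)
        refine hNe ((Subgroup.eq_bot_iff_forall _).2 fun n' hn' => ?_)
        obtain ⟨n, rfl⟩ := hsp n'
        have h2 : n ∈ Zc G S := h1 hn'
        refine FaithfulSMul.eq_of_smul_eq_smul (α := S') fun y' => ?_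
        obtain ⟨y, rfl⟩ := hsq y'
        rw [one_smul, ← heqv]
        exact (hqE _ _).2 ((oE (Zc G S) S).symm ⟨n, h2, rfl⟩)

end Pool.Agent.H17.SGT
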