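import Pool.Agent.H78.S.Targets

/-!
# The transpositions `(j l)` (row SW2 of the board sgt)
-/

set_option autoImplicit false

open Set Pool.Agent.H77.BC Pool.Agent.H78.S

namespace Pool.Agent.H17.SGT

theorem braid {ι : Type} [DecidableEq ι] (i j l : ι) (hij : i ≠ j) (hil : i ≠ l) (hjl : j ≠ l) :
    Equiv.swap i j * Equiv.swap j l * Equiv.swap i j =
      Equiv.swap j l * Equiv.swap i j * Equiv.swap j l := by
  have h1 := Equiv.swap_mul_swap_mul_swap (x := i) (y := j) (z := l) hij hil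
  have h2 := Equiv.swap_mul_swap_mul_swap (x := l) (y := j) (z := i) hjl.symm hil.symm
  rw [h1, Equiv.swap_comm l i, Equiv.swap_comm i j, Equiv.swap_comm j l]
  exact h2

open scoped Classical in
/-- points with given coordinates -/
theorem ex_pt (hLNU : T_LNU) (hCOO : T_COO) (hHIC : T_HIC) {M : Type} (U : RU M) {G S : Type}
    [Group G] [MulAction G S] [Cod M G] [Cod M S] {n : ℕ} (x : Fin (n + 2) → S)
    (hF : Frm U G x) (hN : Nt U G x) (i : Fin (n + 2)) (hi : i ≠ 0) (E₁ E₂ : Set (S × S))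
    (h₁ : E₁ ∈ LL U G x i) (h₂ : E₂ ∈ LL U G x i) (hne : E₁ ≠ E₂)
    (L : LF U G x i E₁) (L' : LF U G x i E₂) (a : L.K) (b : L'.K) (ha : a ≠ 0) (hb : b ≠ 0) :
    ∃ y ∈ Orb (TT U G x 0) (x 0), L.f y = a ∧ L'.f y = b := by
  have := hF.dg
  have := hF.ful
  obtain ⟨hctx, -, -⟩ := hHIC U x hF i hi
  let L0 : ∀ F ∈ LL U G x i, LF U G x i F := fun F h => Classical.choice h
  obtain ⟨φ, hφ⟩ := hLNU U hF.act _ _ _ _ _ hctx E₁ (L0 E₁ h₁) L
  obtain ⟨φ', hφ'⟩ := hLNU U hF.act _ _ _ _ _ hctx E₂ (L0 E₂ h₂) L'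
  let s₁ : {F // F ∈ LL U G x i} := ⟨E₁, h₁⟩
  let s₂ : {F // F ∈ LL U G x i} := ⟨E₂, h₂⟩
  have hs : s₁ ≠ s₂ := fun h => hne (congrArg Subtype.val h)
  let v : ∀ s : {F // F ∈ LL U G x i}, (L0 s.1 s.2).K :=
    Function.update (Function.update (fun _ => 1) s₁ (φ.symm a)) s₂ (φ'.symm b)
  have hv1 : v s₁ = φ.symm a := by
    simp only [v]
    rw [Function.update_of_ne hs, Function.update_self]
  have hv2 : v s₂ = φ'.symm b := by
    simp only [v]
    rw [Function.update_self]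
  have hv0 : ∀ s, v s ≠ 0 := by
    intro s
    by_cases h2 : s = s₂
    · rw [h2, hv2]
      exact fun h => hb ((map_eq_zero φ'.symm).1 h)
    · by_cases h1 : s = s₁
      · rw [h1, hv1]
        exact fun h => ha ((map_eq_zero φ.symm).1 h)
      · simp only [v]
        rw [Function.update_of_ne h2, Function.update_of_ne h1]
        exact one_ne_zero
  obtain ⟨-, hc2, -, hc4⟩ := hCOO U x hF hN i hi L0
  obtain ⟨t, ⟨ht, hval⟩, -⟩ := hc2 (fun F h => v ⟨F, h⟩) (fun F h => hv0 _)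
  have hmem : t • x 0 ∈ Orb (TT U G x 0) (x 0) := ⟨t, ht, rfl⟩
  have hX : t • x 0 ∈ XX U G x i := ((hc4 _).1 hmem).1
  refine ⟨t • x 0, hmem, ?_, ?_⟩
  · rw [hφ _ hX, hval E₁ h₁]
    change φ (v s₁) = a
    rw [hv1, RingEquiv.apply_symm_apply]
  · rw [hφ' _ hX, hval E₂ h₂]
    change φ' (v s₂) = b
    rw [hv2, RingEquiv.apply_symm_apply]

theorem pf_SW2 (hP21 : T_P21) (hLCJ : T_LCJ) (hLNU : T_LNU) (hCOO : T_COO) (hBRA : T_BRA)
    (hCJH : T_CJH) (hHIC : T_HIC) (_hLNK : T_LNK) : T_SW2 := by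
  classical
  intro M U G S _ _ _ _ n x hF hI hN ω hω E hE i j l hi hj hl hij hil hjl L L' θ hw
  set w : G := ω (Equiv.swap i j) with hwd
  set w' : G := ω (Equiv.swap j l) with hwd'
  have hPm : Pm x w (Equiv.swap i j) := hω.pm _
  have hPm' : Pm x w' (Equiv.swap j l) := hω.pm _
  have h0 : Equiv.swap i j 0 = 0 := Equiv.swap_apply_of_ne_of_ne hi.symm hj.symm
  have h0' : Equiv.swap j l 0 = 0 := Equiv.swap_apply_of_ne_of_ne hj.symm hl.symm
  have hσi : Equiv.swap j l i = i := Equiv.swap_apply_of_ne_of_ne hij hil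
  -- the lines
  have hmv1 : mv w' (E i j) = E i l := by
    have h := hE.cjg w' _ hPm' h0' i j hi hj hij
    rwa [hσi, Equiv.swap_apply_left] at h
  have hmv2 : mv w' (E i l) = E i j := by
    have h := hE.cjg w' _ hPm' h0' i l hi hl hil
    rwa [hσi, Equiv.swap_apply_right] at h
  have hm1 := hE.mem i j hi hj hij
  have hm2 := hE.mem i l hi hl hil
  obtain ⟨ψ, hψ⟩ : ∃ ψ : L.K ≃+* L'.K, ∀ y ∈ XX U G x i, w' • y ∈ XX U G x i ∧
      L'.f (w' • y) = ψ (L.f y) := by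
    have h := (hLCJ U x hF w' _ hPm' h0' i hi (E i j) hm1).2.2 L
    rw [hσi, hmv1] at h
    exact h L'
  obtain ⟨ψ', hψ'⟩ : ∃ ψ' : L'.K ≃+* L.K, ∀ y ∈ XX U G x i, w' • y ∈ XX U G x i ∧
      L.f (w' • y) = ψ' (L'.f y) := by
    have h := (hLCJ U x hF w' _ hPm' h0' i hi (E i l) hm2).2.2 L'
    rw [hσi, hmv2] at h
    exact h L
  have hww : w' * w' = 1 := by
    rw [hwd', ← map_mul, Equiv.swap_mul_self, map_one]
  have hinv : ∀ u : L.K, ψ' (ψ u) = u := by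
    intro u
    obtain ⟨y, hy, rfl⟩ := L.line.onto u
    rw [← (hψ y hy).2, ← (hψ' _ (hψ y hy).1).2, ← mul_smul, hww, one_smul]
  have hψs : ∀ v : L'.K, ψ' v = ψ.symm v := by
    intro v
    have h := hinv (ψ.symm v)
    rwa [RingEquiv.apply_symm_apply] at h
  -- braid relation
  have hbr : w * w' * w = w' * w * w' := by
    rw [hwd, hwd', ← map_mul, ← map_mul, ← map_mul, ← map_mul, braid i j l hij hil hjl]
  have hX0 : ∀ y ∈ Orb (TT U G x 0) (x 0), w • y ∈ Orb (TT U G x 0) (x 0) := by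
    intro y hy
    have h := (hCJH U x hF w _ hPm).2.2.2 h0
    rw [← h]
    exact smul_mem_smul_set hy
  have hX0' : ∀ y ∈ Orb (TT U G x 0) (x 0), w' • y ∈ Orb (TT U G x 0) (x 0) := by
    intro y hy
    have h := (hCJH U x hF w' _ hPm').2.2.2 h0'
    rw [← h]
    exact smul_mem_smul_set hy
  have hsub : ∀ y ∈ Orb (TT U G x 0) (x 0), y ∈ XX U G x i := by
    intro y hy
    obtain ⟨-, -, -, hc4⟩ := hCOO U x hF hN i hi (fun F h => Classical.choice h)
    exact ((hc4 y).1 hy).1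
  have hneE : E i j ≠ E i l := fun h => hjl (hE.inj i j l hi hj hl hij hil h)
  set τ : L.K ≃+* L.K := ψ.trans θ.symm with hτ
  have hτs : ∀ u, τ.symm u = ψ.symm (θ u) := fun u => rfl
  have hτid : ∀ u, τ u = u := by
    refine hBRA L.K τ fun p q hp hq => ?_
    obtain ⟨y, hy, hy1, hy2⟩ := ex_pt hLNU hCOO hHIC U x hF hN i hi (E i j) (E i l) hm1 hm2 hneE
      L L' p (θ q) hp (fun h => hq ((map_eq_zero θ).1 h))
    -- left side
    have hl1 : L.f ((w * w' * w) • y) = (ψ.symm (θ q * (θ p)⁻¹))⁻¹ := by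
      rw [mul_smul, mul_smul, (hw _ (hX0' _ (hX0 _ hy))).1, (hψ' _ (hsub _ (hX0 _ hy))).2,
        (hw _ hy).2, hψs, hy1, hy2]
    have hl2 : L.f ((w' * w * w') • y) = ψ.symm (ψ p * (θ (ψ.symm (θ q)))⁻¹) := by
      rw [mul_smul, mul_smul, (hψ' _ (hsub _ (hX0 _ (hX0' _ hy)))).2, (hw _ (hX0' _ hy)).2,
        (hψ _ (hsub _ hy)).2, (hψ' _ (hsub _ hy)).2, hψs, hψs, hy1, hy2]
    rw [hbr, hl2] at hl1
    rw [hτs, hτs, hτs, map_div₀, map_div₀]
    rw [map_mul, map_mul, map_inv₀, map_inv₀, RingEquiv.symm_apply_apply, mul_inv, inv_inv] at hl1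
    rw [div_eq_mul_inv, div_eq_mul_inv, hl1, mul_comm]
  have hψθ : ∀ u, ψ u = θ u := by
    intro u
    have h : θ.symm (ψ u) = u := hτid u
    rw [← h, RingEquiv.apply_symm_apply, h]
  have hψθ' : ∀ v, ψ.symm v = θ.symm v := by
    intro v
    have h := hψθ (ψ.symm v)
    rw [RingEquiv.apply_symm_apply] at h
    rw [h, RingEquiv.symm_apply_apply, ← h]
  refine ⟨fun y hy => ⟨(hψ y hy).1, ?_, ?_⟩, ?_⟩
  · rw [(hψ' y hy).2, hψs, hψθ']
  · rw [(hψ y hy).2, hψθ]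
  · intro m hm him hjm hlm L'' y hy
    have hσm : Equiv.swap j l m = m := Equiv.swap_apply_of_ne_of_ne hjm.symm hlm.symm
    have hmv : mv w' (E i m) = E i m := by
      have h := hE.cjg w' _ hPm' h0' i m hi hm him
      rwa [hσi, hσm] at h
    have hmm := hE.mem i m hi hm him
    have hk := (hLCJ U x hF w' _ hPm' h0' i hi (E i m) hmm).2.1
    rw [hmv] at hk
    exact ((hP21 U x hF hI w' _ hPm' h0' i hi hσi (E i m) hmm hk.symm).2.1 L'' y hy).2

end Pool.Agent.H17.SGT
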